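import Pool.Agent.White.LinMat

set_option autoImplicit false

namespace Pool.Agent.White

open Set

/-- Bit codes (basis `a b c d e f p s t u` = bits `0..9`) of the twenty vectors. -/
def code : Fin 20 → ℕ :=
  ![1, 1 + 64, 2, 2 + 64, 1 + 2 + 128, 1 + 2 + 128 + 64,
    16, 16 + 512, 32, 32 + 512, 16 + 32 + 256, 16 + 32 + 256 + 512,
    4, 4 + 256, 8, 8 + 256, 4 + 8 + 128, 4 + 8 + 128 + 256,
    128, 64 + 512]

/-- The twenty vectors of `GF(2)^10`. -/
def vec (i : Fin 20) : Fin 10 → ZMod 2 := fun j => if (code i).testBit j.1 then 1 else 0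

/-- The rank 10 binary matroid on 20 elements. -/
noncomputable def W20 : Matroid (Fin 20) := linMat (ZMod 2) vec

/-- The colour of an element: `true` on `X`, `false` off `X`. -/
noncomputable def col (X : Set (Fin 20)) (i : Fin 20) : Bool := by
  classical exact decide (i ∈ X)

theorem col_true {X : Set (Fin 20)} {i : Fin 20} : col X i = true ↔ i ∈ X := by
  simp [col]

theorem col_false {X : Set (Fin 20)} {i : Fin 20} : col X i = false ↔ i ∉ X := by
  simp [col]

/-- Element `j` of the gadget `k`. -/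
def emb (k : Fin 3) (j : Fin 6) : Fin 20 := ⟨6 * k.1 + j.1, by omega⟩

/-- First and second element of the `i`-th pair of a gadget. -/
def pr (i : Fin 3) (b : Fin 2) : Fin 6 := ⟨2 * i.1 + b.1, by omega⟩

/-- The four even transversals. -/
def tr : Fin 4 → Fin 3 → Fin 6 := ![![0, 2, 4], ![1, 3, 4], ![1, 2, 5], ![0, 3, 5]]

/-- Some pair is monochromatic of colour `c`. -/
def pairMono (g : Fin 6 → Bool) (c : Bool) : Prop := ∃ i : Fin 3, ∀ b : Fin 2, g (pr i b) = c

instance (g : Fin 6 → Bool) (c : Bool) : Decidable (pairMono g c) := by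
  unfold pairMono; infer_instance

/-- Two pairs are monochromatic of colour `c`. -/
def twoMono (g : Fin 6 → Bool) (c : Bool) : Prop :=
  ∃ i j : Fin 3, i ≠ j ∧ (∀ b : Fin 2, g (pr i b) = c) ∧ (∀ b : Fin 2, g (pr j b) = c)

instance (g : Fin 6 → Bool) (c : Bool) : Decidable (twoMono g c) := by
  unfold twoMono; infer_instance

/-- Some even transversal is monochromatic of colour `c`. -/
def trMono (g : Fin 6 → Bool) (c : Bool) : Prop := ∃ T : Fin 4, ∀ b : Fin 3, g (tr T b) = c

instance (g : Fin 6 → Bool) (c : Bool) : Decidable (trMono g c) := by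
  unfold trMono; infer_instance

/-- Type `P`: both colours contain a full pair. -/
def isP (g : Fin 6 → Bool) : Prop := pairMono g true ∧ pairMono g false

instance (g : Fin 6 → Bool) : Decidable (isP g) := by
  unfold isP; infer_instance

theorem gadget : ∀ g : Fin 6 → Bool,
    (twoMono g true ∨ twoMono g false) ∨ isP g ∨ (trMono g true ∨ trMono g false) := by
  decide +kernel

/-- The gadget `k` of the partition `(X, Xᶜ)` is of type `P`. -/
def P (k : Fin 3) (X : Set (Fin 20)) : Prop := isP (fun j => col X (emb k j))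

theorem not_mono {X : Set (Fin 20)} (hX : LinearIndepOn (ZMod 2) vec X)
    (hXc : LinearIndepOn (ZMod 2) vec Xᶜ) (D : Finset (Fin 20)) (hD : D.Nonempty)
    (h : ∑ i ∈ D, vec i = 0) (c : Bool) (hc : ∀ i ∈ D, col X i = c) : False := by
  cases c with
  | true =>
    exact not_indep_of_sum_eq_zero vec D hD h hX (fun i hi => col_true.1 (hc i hi))
  | false =>
    exact not_indep_of_sum_eq_zero vec D hD h hXc (fun i hi => col_false.1 (hc i hi))

/-- Two pairs in one gadget. -/
def dTwo (k : Fin 3) (i j : Fin 3) : Finset (Fin 20) :=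
  (Finset.univ.image fun b => emb k (pr i b)) ∪ (Finset.univ.image fun b => emb k (pr j b))

/-- Pair `i` of gadget `k`. -/
def dPair (k : Fin 3) (i : Fin 3) : Finset (Fin 20) := Finset.univ.image fun b => emb k (pr i b)

/-- Even transversal `T` of gadget `k`. -/
def dTr (k : Fin 3) (T : Fin 4) : Finset (Fin 20) := Finset.univ.image fun b => emb k (tr T b)

theorem sum_two : ∀ k i j : Fin 3, i ≠ j → ∑ x ∈ dPair k i ∪ dPair k j, vec x = 0 := by
  decide +kernel

theorem sum_s0 : ∀ T : Fin 4, ∑ x ∈ dTr 0 T ∪ {18}, vec x = 0 := by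
  decide +kernel

theorem sum_s2 : ∀ T : Fin 4, ∑ x ∈ dTr 2 T ∪ {18}, vec x = 0 := by
  decide +kernel

theorem sum_02 : ∀ T T' : Fin 4, ∑ x ∈ dTr 0 T ∪ dTr 2 T', vec x = 0 := by
  decide +kernel

theorem sum_12 : ∀ (T : Fin 4) (i : Fin 3), ∑ x ∈ dTr 1 T ∪ dPair 2 i, vec x = 0 := by
  decide +kernel

theorem sum_w : ∀ i j : Fin 3, ∑ x ∈ (dPair 0 i ∪ dPair 1 j) ∪ {19}, vec x = 0 := by
  decide +kernel

theorem dPair_nonempty (k i : Fin 3) : (dPair k i).Nonempty := by
  simp [dPair]

theorem dTr_nonempty (k : Fin 3) (T : Fin 4) : (dTr k T).Nonempty := by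
  simp [dTr]

theorem col_dPair {X : Set (Fin 20)} {k i : Fin 3} {c : Bool}
    (h : ∀ b : Fin 2, (fun j => col X (emb k j)) (pr i b) = c) :
    ∀ x ∈ dPair k i, col X x = c := by
  intro x hx
  simp only [dPair, Finset.mem_image, Finset.mem_univ, true_and] at hx
  obtain ⟨b, rfl⟩ := hx
  exact h b

theorem col_dTr {X : Set (Fin 20)} {k : Fin 3} {T : Fin 4} {c : Bool}
    (h : ∀ b : Fin 3, (fun j => col X (emb k j)) (tr T b) = c) :
    ∀ x ∈ dTr k T, col X x = c := by
  intro x hx
  simp only [dTr, Finset.mem_image, Finset.mem_univ, true_and] at hx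
  obtain ⟨b, rfl⟩ := hx
  exact h b

theorem col_union {X : Set (Fin 20)} {D D' : Finset (Fin 20)} {c : Bool}
    (h : ∀ x ∈ D, col X x = c) (h' : ∀ x ∈ D', col X x = c) :
    ∀ x ∈ D ∪ D', col X x = c := by
  intro x hx
  rcases Finset.mem_union.1 hx with hx | hx
  exacts [h x hx, h' x hx]

theorem col_single {X : Set (Fin 20)} {e : Fin 20} {c : Bool} (h : col X e = c) :
    ∀ x ∈ ({e} : Finset (Fin 20)), col X x = c := by
  intro x hx
  rw [Finset.mem_singleton.1 hx]; exact h

section

variable {X : Set (Fin 20)} (hX : LinearIndepOn (ZMod 2) vec X)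
  (hXc : LinearIndepOn (ZMod 2) vec Xᶜ)

include hX hXc

theorem trMono_of_not_P (k : Fin 3) (hP : ¬ P k X) :
    ∃ (c : Bool) (T : Fin 4), ∀ x ∈ dTr k T, col X x = c := by
  rcases gadget (fun j => col X (emb k j)) with (h | h) | h | (h | h)
  · obtain ⟨i, j, hij, hi, hj⟩ := h
    exact (not_mono hX hXc _ ((dPair_nonempty k i).mono Finset.subset_union_left)
      (sum_two k i j hij) true (col_union (col_dPair hi) (col_dPair hj))).elim
  · obtain ⟨i, j, hij, hi, hj⟩ := h
    exact (not_mono hX hXc _ ((dPair_nonempty k i).mono Finset.subset_union_left)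
      (sum_two k i j hij) false (col_union (col_dPair hi) (col_dPair hj))).elim
  · exact absurd h hP
  · obtain ⟨T, hT⟩ := h
    exact ⟨true, T, col_dTr hT⟩
  · obtain ⟨T, hT⟩ := h
    exact ⟨false, T, col_dTr hT⟩

omit hX hXc in
theorem pair_of_P (k : Fin 3) (hP : P k X) (c : Bool) :
    ∃ i : Fin 3, ∀ x ∈ dPair k i, col X x = c := by
  cases c with
  | true => obtain ⟨i, hi⟩ := hP.1; exact ⟨i, col_dPair hi⟩
  | false => obtain ⟨i, hi⟩ := hP.2; exact ⟨i, col_dPair hi⟩

/-- `O1` and `O3` are not both of type `N`. -/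
theorem excl1 : P 0 X ∨ P 2 X := by
  by_contra hcon
  push Not at hcon
  obtain ⟨c, T, hT⟩ := trMono_of_not_P hX hXc 0 hcon.1
  obtain ⟨c', T', hT'⟩ := trMono_of_not_P hX hXc 2 hcon.2
  by_cases h1 : c = c'
  · subst h1
    exact not_mono hX hXc _ ((dTr_nonempty 0 T).mono Finset.subset_union_left)
      (sum_02 T T') c (col_union hT hT')
  · by_cases h2 : col X 18 = c
    · exact not_mono hX hXc _ ((dTr_nonempty 0 T).mono Finset.subset_union_left)
        (sum_s0 T) c (col_union hT (col_single h2))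
    · have h3 : col X 18 = c' := by
        revert h1 h2; cases c <;> cases c' <;> cases col X 18 <;> simp
      exact not_mono hX hXc _ ((dTr_nonempty 2 T').mono Finset.subset_union_left)
        (sum_s2 T') c' (col_union hT' (col_single h3))

/-- `O3` of type `P` forces `O2` of type `P`. -/
theorem excl2 (h : P 2 X) : P 1 X := by
  by_contra hcon
  obtain ⟨c, T, hT⟩ := trMono_of_not_P hX hXc 1 hcon
  obtain ⟨i, hi⟩ := pair_of_P 2 h c
  exact not_mono hX hXc _ ((dTr_nonempty 1 T).mono Finset.subset_union_left)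
    (sum_12 T i) c (col_union hT hi)

/-- `O1` and `O2` are not both of type `P`. -/
theorem excl3 : ¬ (P 0 X ∧ P 1 X) := by
  rintro ⟨h0, h1⟩
  obtain ⟨i, hi⟩ := pair_of_P 0 h0 (col X 19)
  obtain ⟨j, hj⟩ := pair_of_P 1 h1 (col X 19)
  exact not_mono hX hXc _ (((dPair_nonempty 0 i).mono Finset.subset_union_left).mono
    Finset.subset_union_left) (sum_w i j) _ (col_union (col_union hi hj) (col_single rfl))

/-- The pattern of a partition into two independent sets is `(P, N, N)` or `(N, P, P)`. -/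
theorem pattern : (P 0 X ↔ ¬ P 1 X) ∧ (P 0 X ↔ ¬ P 2 X) := by
  have h1 := excl1 hX hXc
  have h2 := excl2 hX hXc
  have h3 := excl3 hX hXc
  tauto

end

/-- The gadget type depends only on the trace on the gadget. -/
theorem P_congr {X Y : Set (Fin 20)} (k : Fin 3) (h : ∀ j, emb k j ∈ X ↔ emb k j ∈ Y) :
    P k X ↔ P k Y := by
  unfold P
  have : (fun j => col X (emb k j)) = fun j => col Y (emb k j) := by
    funext j
    cases hx : col X (emb k j) <;> cases hy : col Y (emb k j)
    · rfl
    · exact absurd ((h j).2 (col_true.1 hy)) (col_false.1 hx)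
    · exact absurd ((h j).1 (col_true.1 hx)) (col_false.1 hy)
    · rfl
  rw [this]

theorem col_compl (X : Set (Fin 20)) (i : Fin 20) : col Xᶜ i = !(col X i) := by
  cases hx : col X i
  · have := col_false.1 hx
    have h2 : col Xᶜ i = true := col_true.2 this
    simp [h2]
  · have := col_true.1 hx
    have h2 : col Xᶜ i = false := col_false.2 (by simpa using this)
    simp [h2]

theorem P_compl (X : Set (Fin 20)) (k : Fin 3) : P k Xᶜ ↔ P k X := by
  unfold P isP pairMono
  simp only [col_compl, Bool.not_eq_true', Bool.not_eq_false']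
  exact and_comm

theorem emb_gadget : ∀ e f : Fin 20, ∃ k : Fin 3, ∀ j : Fin 6, emb k j ≠ e ∧ emb k j ≠ f := by
  decide +kernel

/-- One single exchange does not change the pattern. -/
theorem P_exchange {X Y : Set (Fin 20)} (hX : LinearIndepOn (ZMod 2) vec X)
    (hXc : LinearIndepOn (ZMod 2) vec Xᶜ) (hY : LinearIndepOn (ZMod 2) vec Y)
    (hYc : LinearIndepOn (ZMod 2) vec Yᶜ) (e f : Fin 20)
    (h : ∀ x, x ≠ e → x ≠ f → (x ∈ X ↔ x ∈ Y)) : P 0 X ↔ P 0 Y := by
  obtain ⟨k, hk⟩ := emb_gadget e f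
  have hkk : P k X ↔ P k Y := P_congr k (fun j => h _ (hk j).1 (hk j).2)
  have pX := pattern hX hXc
  have pY := pattern hY hYc
  have h3 : ∀ k : Fin 3, k = 0 ∨ k = 1 ∨ k = 2 := by decide
  rcases h3 k with rfl | rfl | rfl
  · exact hkk
  · tauto
  · tauto

/-! ### Four explicit bases -/

/-- Row-coded matrices over `ZMod 2`. -/
def bits (f : Fin 10 → ℕ) (i j : Fin 10) : ZMod 2 := if (f i).testBit j.1 then 1 else 0

theorem isBase_of_inv (g : Fin 10 → Fin 20) (hg : Function.Injective g) (N : Fin 10 → ℕ)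
    (h : ∀ i j, ∑ k, vec (g i) k * bits N k j = if i = j then 1 else 0) :
    W20.IsBase (Set.range g) := by
  have hA : (Matrix.of fun i k => vec (g i) k) * (Matrix.of (bits N)) = 1 := by
    ext i j
    rw [Matrix.mul_apply]
    simp only [Matrix.of_apply]
    rw [h i j, Matrix.one_apply]
  have hu : IsUnit (Matrix.of fun i k => vec (g i) k) := by
    rw [Matrix.isUnit_iff_isUnit_det]
    have := congrArg Matrix.det hA
    rw [Matrix.det_mul, Matrix.det_one] at this
    exact IsUnit.of_mul_eq_one _ this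
  have hl := (Matrix.linearIndependent_rows_iff_isUnit (K := ZMod 2)).2 hu
  have hl' : LinearIndependent (ZMod 2) (vec ∘ g) := hl
  have hI : LinearIndepOn (ZMod 2) vec (Set.range g) := (linearIndepOn_range_iff hg vec).2 hl'
  refine isBase_of_card vec hI ?_
  rw [Module.finrank_fin_fun, ← Set.image_univ, Set.ncard_image_of_injective _ hg,
    Set.ncard_univ, Nat.card_eq_fintype_card, Fintype.card_fin]

/-- First base: pattern `(P, N, N)`. -/
def gA : Fin 10 → Fin 20 := ![0, 1, 2, 7, 9, 11, 13, 15, 16, 17]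
/-- Its complement. -/
def gB : Fin 10 → Fin 20 := ![3, 4, 5, 6, 8, 10, 12, 14, 18, 19]
/-- Second base: pattern `(N, P, P)`. -/
def gC : Fin 10 → Fin 20 := ![1, 3, 4, 5, 6, 7, 8, 12, 13, 14]
/-- Its complement. -/
def gD : Fin 10 → Fin 20 := ![0, 2, 9, 10, 11, 15, 16, 17, 18, 19]

/-- The base `A`. -/
def fA : Finset (Fin 20) := {0, 1, 2, 7, 9, 11, 13, 15, 16, 17}
/-- The base `B`. -/
def fB : Finset (Fin 20) := {3, 4, 5, 6, 8, 10, 12, 14, 18, 19}
/-- The base `C`. -/
def fC : Finset (Fin 20) := {1, 3, 4, 5, 6, 7, 8, 12, 13, 14}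
/-- The base `D`. -/
def fD : Finset (Fin 20) := {0, 2, 9, 10, 11, 15, 16, 17, 18, 19}

theorem range_eq (g : Fin 10 → Fin 20) (F : Finset (Fin 20)) (h : Finset.univ.image g = F) :
    Set.range g = (F : Set (Fin 20)) := by
  rw [← h]; simp

theorem base_fA : W20.IsBase (fA : Set (Fin 20)) := by
  rw [← range_eq gA fA (by decide +kernel)]
  exact isBase_of_inv gA (by decide +kernel) ![1, 4, 832, 896, 816, 808, 3, 448, 768, 824]
    (by decide +kernel)

theorem base_fB : W20.IsBase (fB : Set (Fin 20)) := by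
  rw [← range_eq gB fB (by decide +kernel)]
  exact isBase_of_inv gB (by decide +kernel) ![261, 7, 64, 128, 8, 16, 6, 256, 56, 518]
    (by decide +kernel)

theorem base_fC : W20.IsBase (fC : Set (Fin 20)) := by
  rw [← range_eq gC fC (by decide +kernel)]
  exact isBase_of_inv gC (by decide +kernel) ![13, 14, 128, 512, 16, 64, 12, 7, 384, 48]
    (by decide +kernel)

theorem base_fD : W20.IsBase (fD : Set (Fin 20)) := by
  rw [← range_eq gD fD (by decide +kernel)]
  exact isBase_of_inv gD (by decide +kernel) ![1, 2, 416, 224, 212, 28, 536, 256, 192, 24]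
    (by decide +kernel)

theorem fB_eq : fB = fAᶜ := by decide +kernel
theorem fD_eq : fD = fCᶜ := by decide +kernel

theorem coe_fB : (fB : Set (Fin 20)) = (fA : Set (Fin 20))ᶜ := by
  rw [fB_eq]; simp
theorem coe_fD : (fD : Set (Fin 20)) = (fC : Set (Fin 20))ᶜ := by
  rw [fD_eq]; simp

theorem col_coe (F : Finset (Fin 20)) (i : Fin 20) : col (F : Set (Fin 20)) i = decide (i ∈ F) := by
  cases h : col (F : Set (Fin 20)) i
  · have := col_false.1 h
    simp only [Finset.mem_coe] at this
    simp [this]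
  · have := col_true.1 h
    simp only [Finset.mem_coe] at this
    simp [this]

theorem P_fA : P 0 (fA : Set (Fin 20)) := by
  unfold P; simp only [col_coe]; decide +kernel

theorem not_P_fC : ¬ P 0 (fC : Set (Fin 20)) := by
  unfold P; simp only [col_coe]; decide +kernel

theorem W20_indep {X : Set (Fin 20)} (h : W20.IsBase X) : LinearIndepOn (ZMod 2) vec X :=
  h.indep

theorem W20_E : W20.E = Set.univ := rfl

instance : W20.Finite := linMat_finite _

end Pool.Agent.White
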