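import Mathlib

set_option autoImplicit false

namespace Pool.Agent.White

open Set Module

variable {K : Type*} [Field K] {V : Type*} [AddCommGroup V] [Module K V] [FiniteDimensional K V]
variable {ι : Type*} [Finite ι]

theorem ncard_le_finrank_span (v : ι → V) {J : Set ι} (hJ : LinearIndepOn K v J)
    (W : Submodule K V) (hW : ∀ j ∈ J, v j ∈ W) : J.ncard ≤ finrank K W := by
  classical
  have hfin : J.Finite := Set.toFinite J
  have : Fintype J := hfin.fintype
  have h1 : LinearIndependent K (fun j : J => (⟨v j, hW j j.2⟩ : W)) := by
    have : LinearIndependent K (W.subtype ∘ (fun j : J => (⟨v j, hW j j.2⟩ : W))) := hJ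
    exact LinearIndependent.of_comp W.subtype this
  have h2 := h1.fintype_card_le_finrank
  rwa [← Nat.card_eq_fintype_card, Nat.card_coe_set_eq] at h2

/-- The matroid on `ι` of a finite family of vectors `v : ι → V`: a set is independent iff the
corresponding vectors are linearly independent. -/
noncomputable def linMat (K : Type*) [Field K] {V : Type*} [AddCommGroup V] [Module K V]
    [FiniteDimensional K V] {ι : Type*} [Finite ι] (v : ι → V) : Matroid ι :=
  (IndepMatroid.ofFinite (E := (Set.univ : Set ι)) (Set.toFinite _)
    (fun I => LinearIndepOn K v I)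
    (linearIndepOn_empty K v)
    (fun _ _ hJ hIJ => hJ.mono hIJ)
    (by
      intro I J hI hJ hlt
      by_contra hcon
      push Not at hcon
      have hsub : ∀ j ∈ J, v j ∈ Submodule.span K (v '' I) := by
        intro j hj
        by_cases hjI : j ∈ I
        · exact Submodule.subset_span ⟨j, hjI, rfl⟩
        · by_contra hns
          exact hcon j hj hjI ((linearIndepOn_insert hjI).2 ⟨hI, hns⟩)
      have h1 := ncard_le_finrank_span v hJ _ hsub
      have h2 : finrank K (Submodule.span K (v '' I)) ≤ I.ncard := by
        classical
        have : Fintype I := (Set.toFinite I).fintype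
        have : v '' I = Set.range (fun i : I => v i) := by
          ext x; simp
        rw [this]
        refine (finrank_range_le_card (R := K) (fun i : I => v i)).trans ?_
        rw [← Nat.card_eq_fintype_card, Nat.card_coe_set_eq]
      omega)
    (fun _ _ => Set.subset_univ _)).matroid

@[simp] theorem linMat_E (v : ι → V) : (linMat K v).E = Set.univ := rfl

theorem linMat_indep_iff (v : ι → V) (I : Set ι) :
    (linMat K v).Indep I ↔ LinearIndepOn K v I := Iff.rfl

instance linMat_finite (v : ι → V) : (linMat K v).Finite := ⟨Set.toFinite _⟩

/-- An independent set of size at least the dimension is a base. -/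
theorem isBase_of_card (v : ι → V) {I : Set ι} (hI : LinearIndepOn K v I)
    (hc : finrank K V ≤ I.ncard) : (linMat K v).IsBase I := by
  rw [Matroid.isBase_iff_maximal_indep]
  refine ⟨hI, ?_⟩
  intro J hJ hIJ
  have hJ' : LinearIndepOn K v J := hJ
  have h1 := ncard_le_finrank_span v hJ' ⊤ (fun _ _ => trivial)
  rw [finrank_top] at h1
  have : I = J := Set.eq_of_subset_of_ncard_le hIJ (by omega) (Set.toFinite J)
  exact this.symm.subset

/-- A nonempty finite set on which the vectors sum to zero is not independent. -/
theorem not_indep_of_sum_eq_zero (v : ι → V) (D : Finset ι) (hD : D.Nonempty)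
    (h : ∑ i ∈ D, v i = 0) {I : Set ι} (hI : LinearIndepOn K v I) (hDI : (D : Set ι) ⊆ I) :
    False := by
  have h1 : LinearIndepOn K v (D : Set ι) := hI.mono hDI
  rw [linearIndepOn_finset_iff] at h1
  obtain ⟨i, hi⟩ := hD
  have := h1 (fun _ => (1 : K)) (by simpa using h) i hi
  exact one_ne_zero this

end Pool.Agent.White
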