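import Pool.Statements.S09712
import Pool.Agent.White.Core

set_option autoImplicit false
open Pool Pool.MP_7e6f74_co

namespace Pool.Agent.White.SibS09712

/-- The negation of the preceding statement: For every finite matroid whose ground set splits into k ≥ 1 disjoint bases, the graph on bases whose complement splits into k−1 disjoint bases, joined when they differ by a single exchange, is connected. -/
theorem result :
    ¬ (∀ (α : Type) (M : Matroid α) (k : ℕ), M.Finite → 1 ≤ k →
      (∃ B : Fin k → Set α, (∀ i, M.IsBase (B i)) ∧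
          Pairwise (Function.onFun Disjoint B) ∧ (⋃ i, B i) = M.E) →
      (SimpleGraph.fromRel
        (fun (X Y : {X : Set α // M.IsBase X ∧
            ∃ C : Fin (k - 1) → Set α, (∀ i, M.IsBase (C i)) ∧
              Pairwise (Function.onFun Disjoint C) ∧ (⋃ i, C i) = M.E \ X}) =>
          (symmDiff X.1 Y.1).ncard = 2)).Connected) := by
  intro h
  have hE : Pool.Agent.White.W20.E = Set.univ := Pool.Agent.White.W20_E
  have hcon := h (Fin 20) Pool.Agent.White.W20 2 inferInstance (by norm_num) (by
    refine ⟨![(Pool.Agent.White.fA : Set (Fin 20)), (Pool.Agent.White.fB : Set (Fin 20))],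
      ?_, ?_, ?_⟩
    · intro i
      have : ∀ k : Fin 2, k = 0 ∨ k = 1 := by decide
      rcases this i with rfl | rfl
      · exact Pool.Agent.White.base_fA
      · exact Pool.Agent.White.base_fB
    · intro i j hij
      have : ∀ i j : Fin 2, i ≠ j → (i = 0 ∧ j = 1) ∨ (i = 1 ∧ j = 0) := by decide
      rcases this i j hij with ⟨rfl, rfl⟩ | ⟨rfl, rfl⟩
      · simp only [Function.onFun, Matrix.cons_val_zero, Matrix.cons_val_one]
        rw [Pool.Agent.White.coe_fB]; exact disjoint_compl_right
      · simp only [Function.onFun, Matrix.cons_val_zero, Matrix.cons_val_one]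
        rw [Pool.Agent.White.coe_fB]; exact disjoint_compl_left
    · rw [hE]
      ext x
      simp only [Set.mem_iUnion, Fin.exists_fin_two, Matrix.cons_val_zero, Matrix.cons_val_one,
        Set.mem_univ, iff_true]
      rw [Pool.Agent.White.coe_fB]
      exact em _)
  have key : ∀ X : Set (Fin 20), (∃ C : Fin (2 - 1) → Set (Fin 20),
      (∀ i, Pool.Agent.White.W20.IsBase (C i)) ∧ Pairwise (Function.onFun Disjoint C) ∧
        (⋃ i, C i) = Pool.Agent.White.W20.E \ X) → Pool.Agent.White.W20.IsBase Xᶜ := by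
    rintro X ⟨C, hC, -, hU⟩
    have h0 : (⋃ i, C i) = C 0 := by
      ext x
      simp only [Set.mem_iUnion]
      constructor
      · rintro ⟨i, hi⟩
        have hi0 : i = 0 := by
          apply Fin.ext
          have := i.isLt
          have h00 : ((0 : Fin (2 - 1)) : ℕ) = 0 := rfl
          omega
        rwa [hi0] at hi
      · intro hx; exact ⟨0, hx⟩
    rw [hE, h0, ← Set.compl_eq_univ_sdiff] at hU
    rw [← hU]; exact hC 0
  have mk : ∀ X : Set (Fin 20), Pool.Agent.White.W20.IsBase Xᶜ → (∃ C : Fin (2 - 1) → Set (Fin 20),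
      (∀ i, Pool.Agent.White.W20.IsBase (C i)) ∧ Pairwise (Function.onFun Disjoint C) ∧
        (⋃ i, C i) = Pool.Agent.White.W20.E \ X) := by
    intro X hX
    refine ⟨fun _ => Xᶜ, fun _ => hX, ?_, ?_⟩
    · intro i j hij
      exact absurd (Fin.ext (by have := i.isLt; have := j.isLt; omega)) hij
    · rw [hE, ← Set.compl_eq_univ_sdiff]
      ext x
      simp only [Set.mem_iUnion]
      exact ⟨fun ⟨_, hx⟩ => hx, fun hx => ⟨0, hx⟩⟩
  have hB : Pool.Agent.White.W20.IsBase (Pool.Agent.White.fA : Set (Fin 20))ᶜ := by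
    rw [← Pool.Agent.White.coe_fB]; exact Pool.Agent.White.base_fB
  have hD : Pool.Agent.White.W20.IsBase (Pool.Agent.White.fC : Set (Fin 20))ᶜ := by
    rw [← Pool.Agent.White.coe_fD]; exact Pool.Agent.White.base_fD
  obtain ⟨w⟩ := hcon.preconnected
    ⟨(Pool.Agent.White.fA : Set (Fin 20)), Pool.Agent.White.base_fA, mk _ hB⟩
    ⟨(Pool.Agent.White.fC : Set (Fin 20)), Pool.Agent.White.base_fC, mk _ hD⟩
  have hadjP : ∀ X Y : Set (Fin 20), Pool.Agent.White.W20.IsBase X →
      Pool.Agent.White.W20.IsBase Xᶜ → Pool.Agent.White.W20.IsBase Y →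
      Pool.Agent.White.W20.IsBase Yᶜ → (symmDiff X Y).ncard = 2 →
      (Pool.Agent.White.P 0 X ↔ Pool.Agent.White.P 0 Y) := by
    intro X Y hX hXc hY hYc h2
    obtain ⟨e, f, -, hef⟩ := Set.ncard_eq_two.1 h2
    refine Pool.Agent.White.P_exchange (Pool.Agent.White.W20_indep hX)
      (Pool.Agent.White.W20_indep hXc) (Pool.Agent.White.W20_indep hY)
      (Pool.Agent.White.W20_indep hYc) e f ?_
    intro x hxe hxf
    have hx : x ∉ symmDiff X Y := by
      rw [hef]
      simp only [Set.mem_insert_iff, Set.mem_singleton_iff, not_or]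
      exact ⟨hxe, hxf⟩
    rw [Set.mem_symmDiff] at hx
    by_cases h1 : x ∈ X
    · by_cases h3 : x ∈ Y
      · exact ⟨fun _ => h3, fun _ => h1⟩
      · exact absurd (Or.inl ⟨h1, h3⟩) hx
    · by_cases h3 : x ∈ Y
      · exact absurd (Or.inr ⟨h3, h1⟩) hx
      · exact ⟨fun h => absurd h h1, fun h => absurd h h3⟩
  have hinv : ∀ {X Y} (_ : (SimpleGraph.fromRel
        (fun (X Y : {X : Set (Fin 20) // Pool.Agent.White.W20.IsBase X ∧
            ∃ C : Fin (2 - 1) → Set (Fin 20), (∀ i, Pool.Agent.White.W20.IsBase (C i)) ∧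
              Pairwise (Function.onFun Disjoint C) ∧
                (⋃ i, C i) = Pool.Agent.White.W20.E \ X}) =>
          (symmDiff X.1 Y.1).ncard = 2)).Walk X Y),
      Pool.Agent.White.P 0 X.1 ↔ Pool.Agent.White.P 0 Y.1 := by
    intro X Y w
    induction w with
    | nil => exact Iff.rfl
    | @cons U V W hadj _ ih =>
      refine Iff.trans ?_ ih
      have h2 : (symmDiff U.1 V.1).ncard = 2 := by
        have := (SimpleGraph.fromRel_adj _ _ _).1 hadj
        rcases this.2 with h2 | h2
        · exact h2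
        · rwa [symmDiff_comm] at h2
      exact hadjP U.1 V.1 U.2.1 (key _ U.2.2) V.2.1 (key _ V.2.2) h2
  exact Pool.Agent.White.not_P_fC ((hinv w).1 Pool.Agent.White.P_fA)

end Pool.Agent.White.SibS09712
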